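import Pool.Agent.helper64.PB.SpecW

/-!
# pb:HLO (MP_069684_lc)
-/

set_option autoImplicit false

namespace Pool.Agent.PB

/-- the point of the second kind -/
def HLO_P (k n : ℕ) (x : Fin n → Bool) : Fin ((k + 1) * n + (k + 2)) → Bool :=
  fun i => (Sum.elim (fun p : Fin (k + 1) × Fin n => x p.2)
    fun m : Fin (k + 2) => !(decide (m = Fin.last (k + 1)))) ((eH k n).symm i)

/-- the points of the third kind -/
def HLO_T (k n : ℕ) (x : Fin n → Bool) (j : Fin (k + 1)) : Fin ((k + 1) * n + (k + 2)) → Bool :=
  fun i => (Sum.elim (fun p : Fin (k + 1) × Fin n => if p.1 = j then !(x p.2) else true)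
    fun m : Fin (k + 2) => !(decide (m = j.castSucc))) ((eH k n).symm i)

lemma HLO_P_inl (k n : ℕ) (x : Fin n → Bool) (j : Fin (k + 1)) (i : Fin n) :
    HLO_P k n x (eH k n (Sum.inl (j, i))) = x i := by
  simp [HLO_P]

lemma HLO_P_inr (k n : ℕ) (x : Fin n → Bool) (m : Fin (k + 2)) :
    HLO_P k n x (eH k n (Sum.inr m)) = !(decide (m = Fin.last (k + 1))) := by
  simp [HLO_P]

lemma HLO_T_inl (k n : ℕ) (x : Fin n → Bool) (j j' : Fin (k + 1)) (i : Fin n) :
    HLO_T k n x j (eH k n (Sum.inl (j', i))) = if j' = j then !(x i) else true := by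
  simp [HLO_T]

lemma HLO_T_inr (k n : ℕ) (x : Fin n → Bool) (j : Fin (k + 1)) (m : Fin (k + 2)) :
    HLO_T k n x j (eH k n (Sum.inr m)) = !(decide (m = j.castSucc)) := by
  simp [HLO_T]

lemma HLO_fP (k n : ℕ) (h : BF n) (x : Fin n → Bool) (hx : h x = true) :
    fH k n h (HLO_P k n x) = true := by
  unfold fH
  simp only [Bool.or_eq_true, Bool.and_eq_true, decide_eq_true_eq]
  left
  right
  refine ⟨⟨fun m => HLO_P_inr k n x m, fun j i => ?_⟩, ?_⟩
  · rw [HLO_P_inl, HLO_P_inl]
  · have e : (fun i => HLO_P k n x (eH k n (Sum.inl (0, i)))) = x := by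
      funext i
      exact HLO_P_inl k n x 0 i
    rw [e]
    exact hx

lemma HLO_fT (k n : ℕ) (h : BF n) (x : Fin n → Bool) (j : Fin (k + 1)) (hx : h x = false) :
    fH k n h (HLO_T k n x j) = true := by
  unfold fH
  simp only [Bool.or_eq_true, Bool.and_eq_true, decide_eq_true_eq]
  right
  refine ⟨j, fun m => HLO_T_inr k n x j m, fun j' i hj' => ?_, ?_⟩
  · rw [HLO_T_inl, if_neg hj']
  · have e : (fun i => !(HLO_T k n x j (eH k n (Sum.inl (j, i))))) = x := by
      funext i
      rw [HLO_T_inl, if_pos rfl, Bool.not_not]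
    rw [e]
    exact hx

theorem HLO : HLO_stmt := by
  intro k n h u hu hf x
  change u (HLO_P k n x) = h x
  cases hx : h x with
  | true => exact hf _ (HLO_fP k n h x hx)
  | false =>
    by_contra hc
    have hP : u (HLO_P k n x) = true := by
      cases hv : u (HLO_P k n x) with
      | true => rfl
      | false => exact absurd hv hc
    obtain ⟨i, hi⟩ := hu (fun m : Fin (k + 2) =>
      Fin.lastCases (motive := fun _ => Fin ((k + 1) * n + (k + 2)) → Bool) (HLO_P k n x)
        (fun j => HLO_T k n x j) m) (by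
        intro m
        refine Fin.lastCases ?_ (fun j => ?_) m
        · rw [Fin.lastCases_last]
          exact hP
        · rw [Fin.lastCases_castSucc]
          exact hf _ (HLO_fT k n h x j hx))
    have h1 : HLO_P k n x i = true := by
      have := hi (Fin.last (k + 1))
      rw [Fin.lastCases_last] at this
      exact this
    have h2 : ∀ j : Fin (k + 1), HLO_T k n x j i = true := by
      intro j
      have := hi j.castSucc
      rw [Fin.lastCases_castSucc] at this
      exact this
    obtain ⟨s, rfl⟩ := (eH k n).surjective i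
    rcases s with ⟨j, i'⟩ | m
    · have h3 := h2 j
      rw [HLO_T_inl, if_pos rfl] at h3
      rw [HLO_P_inl] at h1
      rw [h1] at h3
      exact absurd h3 (by decide)
    · revert h1 h2
      refine Fin.lastCases ?_ (fun j => ?_) m
      · intro h1 _
        rw [HLO_P_inr] at h1
        simp at h1
      · intro _ h2
        have h3 := h2 j
        rw [HLO_T_inr] at h3
        simp at h3

end Pool.Agent.PB
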